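import Pool.Agent.Helper93.Bez.Zeros

/-!
# Chains of quadratic systems

Points `v 0, ..., v (N - 1)` and systems `f i`, such that `f i` vanishes at `v i, ..., v (N - 1)` and
`v i` is a nonsingular zero of `f i`. Then `N ≤ 2 ^ n`.
-/

namespace Pool.Agent.Helper93.Bez

open Finset MvPolynomial Filter Topology

variable {n : ℕ}

/-- Perturbed system. -/
noncomputable def pert (G f : Fin n → MvPolynomial (Fin n) ℝ) (ε : ℝ) :
    Fin n → MvPolynomial (Fin n) ℝ := fun k => G k + C ε * f k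

theorem eval_pert (G f : Fin n → MvPolynomial (Fin n) ℝ) (ε : ℝ) (x : Fin n → ℝ) (k : Fin n) :
    eval x (pert G f ε k) = eval x (G k) + ε * eval x (f k) := by
  simp [pert]

theorem jac_pert (G f : Fin n → MvPolynomial (Fin n) ℝ) (ε : ℝ) (x : Fin n → ℝ) :
    jac (pert G f ε) x = jac G x + ε • jac f x := by
  ext i j
  simp [jac, pert]

theorem deg_pert {G f : Fin n → MvPolynomial (Fin n) ℝ} (hG : ∀ k, (G k).totalDegree ≤ 2)
    (hf : ∀ k, (f k).totalDegree ≤ 2) (ε : ℝ) (k : Fin n) :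
    (pert G f ε k).totalDegree ≤ 2 := by
  refine (totalDegree_add _ _).trans (max_le (hG k) ?_)
  refine (totalDegree_mul _ _).trans ?_
  rw [totalDegree_C, zero_add]
  exact hf k

theorem continuous_jac (G : Fin n → MvPolynomial (Fin n) ℝ) : Continuous (jac G) := by
  refine continuous_matrix fun i j => ?_
  exact MvPolynomial.continuous_eval _

/-- Nonsingular zeros persist. -/
theorem persist (G f : Fin n → MvPolynomial (Fin n) ℝ) (z : Fin n → ℝ)
    (h0 : ∀ k, eval z (G k) = 0) (h1 : (jac G z).det ≠ 0) {U : Set (Fin n → ℝ)}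
    (hU : U ∈ 𝓝 z) : ∀ᶠ ε in 𝓝 (0 : ℝ), ∃ x ∈ U, (∀ k, eval x (pert G f ε k) = 0) ∧
      (jac (pert G f ε) x).det ≠ 0 := by
  let Ψ : (Fin n → ℝ) × ℝ → (Fin n → ℝ) × ℝ := fun p => (pmap G p.1 + p.2 • pmap f p.1, p.2)
  have hG : HasStrictFDerivAt (fun p : (Fin n → ℝ) × ℝ => pmap G p.1)
      ((Matrix.toLin' (jac G z)).toContinuousLinearMap.comp
        (ContinuousLinearMap.fst ℝ (Fin n → ℝ) ℝ)) (z, 0) :=
    HasStrictFDerivAt.comp (z, (0 : ℝ)) (g := pmap G) (f := Prod.fst)
      (hasStrict_pmap G z) hasStrictFDerivAt_fst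
  have hf : HasStrictFDerivAt (fun p : (Fin n → ℝ) × ℝ => pmap f p.1)
      ((Matrix.toLin' (jac f z)).toContinuousLinearMap.comp
        (ContinuousLinearMap.fst ℝ (Fin n → ℝ) ℝ)) (z, 0) :=
    HasStrictFDerivAt.comp (z, (0 : ℝ)) (g := pmap f) (f := Prod.fst)
      (hasStrict_pmap f z) hasStrictFDerivAt_fst
  have hs : HasStrictFDerivAt (fun p : (Fin n → ℝ) × ℝ => p.2)
      (ContinuousLinearMap.snd ℝ (Fin n → ℝ) ℝ) (z, 0) := hasStrictFDerivAt_snd
  have hΨ := (hG.add (hs.smul hf)).prodMk hs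
  have hsurj : (((Matrix.toLin' (jac G z)).toContinuousLinearMap.comp
        (ContinuousLinearMap.fst ℝ (Fin n → ℝ) ℝ) +
      ((z, (0 : ℝ)).2 • (Matrix.toLin' (jac f z)).toContinuousLinearMap.comp
        (ContinuousLinearMap.fst ℝ (Fin n → ℝ) ℝ) +
        (ContinuousLinearMap.snd ℝ (Fin n → ℝ) ℝ).smulRight (pmap f (z, (0 : ℝ)).1))).prod
      (ContinuousLinearMap.snd ℝ (Fin n → ℝ) ℝ)).range = ⊤ := by
    rw [LinearMap.range_eq_top]
    rintro ⟨a, b⟩
    have hsj : Function.Surjective (Matrix.toLin' (jac G z)) := by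
      intro w
      refine ⟨(jac G z)⁻¹.mulVec w, ?_⟩
      rw [Matrix.toLin'_apply, Matrix.mulVec_mulVec, Matrix.mul_nonsing_inv _
        (isUnit_iff_ne_zero.2 h1), Matrix.one_mulVec]
    obtain ⟨x, hx⟩ := hsj (a - b • pmap f z)
    refine ⟨(x, b), ?_⟩
    rw [Matrix.toLin'_apply] at hx
    ext i
    · simp [hx]
    · simp
  have hmap := HasStrictFDerivAt.map_nhds_eq_of_surj hΨ hsurj
  have hz : (pmap G z + (0 : ℝ) • pmap f z, (0 : ℝ)) = (0, 0) := by
    rw [zero_smul, add_zero]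
    have : pmap G z = 0 := funext fun k => h0 k
    rw [this]
  have hW : {p : (Fin n → ℝ) × ℝ | p.1 ∈ U ∧ (jac (pert G f p.2) p.1).det ≠ 0} ∈
      𝓝 (z, (0 : ℝ)) := by
    refine Filter.inter_mem (continuous_fst.continuousAt.preimage_mem_nhds hU) ?_
    have hc : Continuous fun p : (Fin n → ℝ) × ℝ => (jac (pert G f p.2) p.1).det := by
      simp only [jac_pert]
      exact Continuous.matrix_det (((continuous_jac G).comp continuous_fst).add
        (continuous_snd.smul ((continuous_jac f).comp continuous_fst)))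
    have : (jac (pert G f (z, (0 : ℝ)).2) (z, (0 : ℝ)).1).det ≠ 0 := by
      rw [jac_pert]
      simpa using h1
    exact hc.continuousAt.preimage_mem_nhds (isOpen_ne.mem_nhds this)
  have him := Filter.image_mem_map (m := Ψ) hW
  have hmap' : Filter.map Ψ (𝓝 (z, (0 : ℝ))) = 𝓝 ((0 : Fin n → ℝ), (0 : ℝ)) := by
    rw [← hz]
    exact hmap
  rw [hmap'] at him
  have hc : Tendsto (fun ε : ℝ => ((0 : Fin n → ℝ), ε)) (𝓝 0) (𝓝 (0, 0)) :=
    (Continuous.prodMk_right (0 : Fin n → ℝ)).tendsto 0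
  filter_upwards [hc.eventually him] with ε hε
  obtain ⟨⟨x, s⟩, ⟨hx1, hx2⟩, hx3⟩ := hε
  have hs2 : s = ε := congrArg Prod.snd hx3
  subst hs2
  refine ⟨x, hx1, ?_, hx2⟩
  intro k
  have := congrFun (congrArg Prod.fst hx3) k
  rw [eval_pert]
  exact this

/-- Adding a system which is nonsingular at a new zero. -/
theorem step (G f : Fin n → MvPolynomial (Fin n) ℝ) (Z A : Finset (Fin n → ℝ)) (z0 : Fin n → ℝ)
    (hz0 : z0 ∉ Z) (hZA : Disjoint Z A) (h0 : ∀ z ∈ Z, ∀ k, eval z (G k) = 0)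
    (h1 : ∀ z ∈ Z, (jac G z).det ≠ 0) (h2 : (jac f z0).det ≠ 0) :
    ∃ (ε : ℝ) (Z' : Finset (Fin n → ℝ)), Z'.card = Z.card ∧ z0 ∉ Z' ∧ Disjoint Z' A ∧
      (∀ z ∈ Z', ∀ k, eval z (pert G f ε k) = 0) ∧ (∀ z ∈ Z', (jac (pert G f ε) z).det ≠ 0) ∧
      (jac (pert G f ε) z0).det ≠ 0 := by
  classical
  obtain ⟨U, hU, hdisj⟩ := (Z ∪ insert z0 A).finite_toSet.t2_separation
  have hev1 : ∀ᶠ ε in 𝓝 (0 : ℝ), ∀ z ∈ Z, ∃ x ∈ U z, (∀ k, eval x (pert G f ε k) = 0) ∧
      (jac (pert G f ε) x).det ≠ 0 := by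
    rw [Filter.eventually_all_finset]
    intro z hz
    exact persist G f z (h0 z hz) (h1 z hz) ((hU z).2.mem_nhds (hU z).1)
  -- the determinant at the new zero
  let p : Polynomial ℝ := (Matrix.of fun i j => Polynomial.C (jac G z0 i j) +
    Polynomial.X * Polynomial.C (jac f z0 i j)).det
  have hp : ∀ ε : ℝ, p.eval ε = (jac (pert G f ε) z0).det := by
    intro ε
    have h3 : p.eval ε = (Polynomial.evalRingHom ε) p := rfl
    rw [h3, RingHom.map_det, jac_pert]
    congr 1
    ext i j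
    simp
    ring
  have hp0 : p ≠ 0 := by
    intro hp0
    -- the leading coefficient
    have h4 : ∀ ε : ℝ, (jac G z0 + ε • jac f z0).det = 0 := by
      intro ε
      rw [← jac_pert, ← hp, hp0, Polynomial.eval_zero]
    have h5 : ∀ s : ℝ, s ≠ 0 → (s • jac G z0 + jac f z0).det = 0 := by
      intro s hs
      have h6 : s • jac G z0 + jac f z0 = s • (jac G z0 + s⁻¹ • jac f z0) := by
        rw [smul_add, smul_smul, mul_inv_cancel₀ hs, one_smul]
      rw [h6, Matrix.det_smul, h4, mul_zero]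
    have hc : Continuous fun s : ℝ => (s • jac G z0 + jac f z0).det :=
      Continuous.matrix_det ((continuous_id.smul continuous_const).add continuous_const)
    have h7 : (fun s : ℝ => (s • jac G z0 + jac f z0).det) 0 = 0 := by
      have h8 : Tendsto (fun s : ℝ => (s • jac G z0 + jac f z0).det) (𝓝[≠] 0)
          (𝓝 ((fun s : ℝ => (s • jac G z0 + jac f z0).det) 0)) :=
        (hc.tendsto 0).mono_left nhdsWithin_le_nhds
      have h9 : Tendsto (fun s : ℝ => (s • jac G z0 + jac f z0).det) (𝓝[≠] 0) (𝓝 0) := by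
        refine tendsto_const_nhds.congr' ?_
        filter_upwards [self_mem_nhdsWithin] with s hs
        exact (h5 s hs).symm
      exact tendsto_nhds_unique h8 h9
    apply h2
    simpa using h7
  have hev2 : ∀ᶠ ε in 𝓝[≠] (0 : ℝ), (jac (pert G f ε) z0).det ≠ 0 := by
    have hfin : ((p.roots.toFinset : Set ℝ) \ {0}).Finite :=
      (Finset.finite_toSet _).subset Set.sdiff_subset
    have hcl : (((p.roots.toFinset : Set ℝ) \ {0})ᶜ) ∈ 𝓝 (0 : ℝ) :=
      hfin.isClosed.isOpen_compl.mem_nhds (by simp)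
    rw [eventually_nhdsWithin_iff]
    filter_upwards [hcl] with s hs hs0 h9
    apply hs
    refine ⟨?_, hs0⟩
    rw [Finset.mem_coe, Multiset.mem_toFinset, Polynomial.mem_roots hp0]
    show p.eval s = 0
    rw [hp]
    exact h9
  obtain ⟨ε, hε1, hε2⟩ := ((hev1.filter_mono nhdsWithin_le_nhds).and hev2).exists
  choose! x hxU hx0 hx1 using hε1
  have hsep : ∀ z ∈ Z, ∀ w ∈ Z ∪ insert z0 A, z ≠ w → x z ∉ U w := by
    intro z hz w hw hne hmem
    exact Set.disjoint_left.1 (hdisj (Finset.mem_coe.2 (Finset.mem_union_left _ hz))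
      (Finset.mem_coe.2 hw) hne) (hxU z hz) hmem
  refine ⟨ε, Z.image x, ?_, ?_, ?_, ?_, ?_, hε2⟩
  · refine Finset.card_image_of_injOn fun z hz z' hz' heq => ?_
    by_contra hne
    refine hsep z hz z' (Finset.mem_union_left _ hz') hne ?_
    have heq' : x z = x z' := heq
    rw [heq']
    exact hxU z' hz'
  · intro hmem
    obtain ⟨z, hz, hxz⟩ := Finset.mem_image.1 hmem
    refine hsep z hz z0 (Finset.mem_union_right _ (Finset.mem_insert_self _ _)) ?_ ?_
    · intro h
      exact hz0 (h ▸ hz)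
    · rw [hxz]
      exact (hU z0).1
  · rw [Finset.disjoint_left]
    intro w hw hwA
    obtain ⟨z, hz, hxz⟩ := Finset.mem_image.1 hw
    refine hsep z hz w (Finset.mem_union_right _ (Finset.mem_insert_of_mem hwA)) ?_ ?_
    · intro h
      exact Finset.disjoint_left.1 hZA hz (h ▸ hwA)
    · rw [hxz]
      exact (hU w).1
  · intro w hw k
    obtain ⟨z, hz, rfl⟩ := Finset.mem_image.1 hw
    exact hx0 z hz k
  · intro w hw
    obtain ⟨z, hz, rfl⟩ := Finset.mem_image.1 hw
    exact hx1 z hz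

/-- **The chain bound.** -/
theorem chain {N : ℕ} (v : Fin N → Fin n → ℝ) (hv : Function.Injective v)
    (f : Fin N → Fin n → MvPolynomial (Fin n) ℝ) (hdeg : ∀ i k, (f i k).totalDegree ≤ 2)
    (hvan : ∀ i j, i ≤ j → ∀ k, eval (v j) (f i k) = 0)
    (hJ : ∀ i, (jac (f i) (v i)).det ≠ 0) : N ≤ 2 ^ n := by
  classical
  have key : ∀ m : ℕ, m ≤ N → ∃ (G : Fin n → MvPolynomial (Fin n) ℝ) (Z : Finset (Fin n → ℝ)),
      (∀ k, (G k).totalDegree ≤ 2) ∧ Z.card = m ∧
      (∀ z ∈ Z, ∀ k, eval z (G k) = 0) ∧ (∀ z ∈ Z, (jac G z).det ≠ 0) ∧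
      (∀ j : Fin N, m ≤ j → (v j ∉ Z ∧ ∀ k, eval (v j) (G k) = 0)) := by
    intro m
    induction m with
    | zero =>
      intro _
      refine ⟨fun _ => 0, ∅, ?_, rfl, ?_, ?_, ?_⟩
      · intro k
        simp
      · intro z hz
        simp at hz
      · intro z hz
        simp at hz
      · intro j _
        simp
    | succ m ih =>
      intro hm
      obtain ⟨G, Z, h1, h2, h3, h4, h5⟩ := ih (by omega)
      let i : Fin N := ⟨m, by omega⟩
      have hi := h5 i (le_refl m)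
      let A : Finset (Fin n → ℝ) := (Finset.univ.filter fun j : Fin N => m + 1 ≤ (j : ℕ)).image v
      have hZA : Disjoint Z A := by
        rw [Finset.disjoint_right]
        intro w hw
        obtain ⟨j, hj, rfl⟩ := Finset.mem_image.1 hw
        exact (h5 j (by have := (Finset.mem_filter.1 hj).2; omega)).1
      obtain ⟨ε, Z', k1, k2, k3, k4, k5, k6⟩ := step G (f i) Z A (v i) hi.1 hZA h3 h4 (hJ i)
      refine ⟨pert G (f i) ε, insert (v i) Z', deg_pert h1 (hdeg i) ε, ?_, ?_, ?_, ?_⟩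
      · rw [Finset.card_insert_of_notMem k2, k1, h2]
      · intro z hz k
        rcases Finset.mem_insert.1 hz with rfl | hz
        · rw [eval_pert, hi.2 k, hvan i i le_rfl k, mul_zero, add_zero]
        · exact k4 z hz k
      · intro z hz
        rcases Finset.mem_insert.1 hz with rfl | hz
        · exact k6
        · exact k5 z hz
      · intro j hj
        refine ⟨?_, ?_⟩
        · rw [Finset.mem_insert, not_or]
          refine ⟨?_, ?_⟩
          · intro h
            have h7 := hv h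
            rw [h7] at hj
            simp [i] at hj
          · intro h
            refine Finset.disjoint_left.1 k3 h ?_
            exact Finset.mem_image_of_mem v (Finset.mem_filter.2 ⟨Finset.mem_univ _, hj⟩)
        · intro k
          rw [eval_pert, (h5 j (by omega)).2 k, hvan i j (Fin.le_def.2 (by simp [i]; omega)) k,
            mul_zero, add_zero]
  obtain ⟨G, Z, h1, h2, h3, h4, _⟩ := key N le_rfl
  rw [← h2]
  exact card_zeros_le G h1 Z h3 h4

end Pool.Agent.Helper93.Bez
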