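import Mathlib

/-!
# Counting exponents

`S n T`: the exponents of total degree at most `T` in `n` variables.
-/

namespace Pool.Agent.Helper93.Bez

open Finset Filter Topology

/-- Exponents of degree at most `T`. -/
def S (n T : ℕ) : Finset (Fin n → ℕ) :=
  (Fintype.piFinset fun _ => Finset.range (T + 1)).filter fun a => ∑ i, a i ≤ T

theorem mem_S {n T : ℕ} {a : Fin n → ℕ} : a ∈ S n T ↔ ∑ i, a i ≤ T := by
  unfold S
  rw [Finset.mem_filter, Fintype.mem_piFinset]
  constructor
  · exact fun h => h.2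
  · intro h
    refine ⟨fun i => ?_, h⟩
    rw [Finset.mem_range]
    have := Finset.single_le_sum (f := a) (fun i _ => Nat.zero_le _) (Finset.mem_univ i)
    omega

theorem card_S_le (n T : ℕ) : (S n T).card ≤ (T + 1) ^ n := by
  unfold S
  refine (Finset.card_filter_le _ _).trans ?_
  rw [Fintype.card_piFinset]
  simp

theorem card_S_pos (n T : ℕ) : 0 < (S n T).card := by
  refine Finset.card_pos.2 ⟨0, ?_⟩
  rw [mem_S]
  simp

theorem card_S_double (n M : ℕ) : (S n (2 * M)).card ≤ 2 ^ n * (S n M).card := by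
  classical
  have h : (S n (2 * M)).card ≤
      ((S n M) ×ˢ (Finset.univ : Finset (Fin n → Fin 2))).card := by
    refine Finset.card_le_card_of_injOn
      (fun a => (fun i => a i / 2, fun i => ⟨a i % 2, Nat.mod_lt _ (by norm_num)⟩)) ?_ ?_
    · intro a ha
      rw [Finset.mem_coe, mem_S] at ha
      rw [Finset.mem_coe, Finset.mem_product]
      refine ⟨?_, Finset.mem_univ _⟩
      rw [mem_S]
      have h1 : 2 * ∑ i, a i / 2 ≤ ∑ i, a i := by
        rw [Finset.mul_sum]
        exact Finset.sum_le_sum fun i _ => Nat.mul_div_le _ _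
      show ∑ i, a i / 2 ≤ M
      omega
    · intro a _ b _ hab
      have h1 := congrArg Prod.fst hab
      have h2 := congrArg Prod.snd hab
      funext i
      have h3 : a i / 2 = b i / 2 := congrFun h1 i
      have h4 : a i % 2 = b i % 2 := by
        have := congrFun h2 i
        simpa [Fin.ext_iff] using this
      omega
  rw [Finset.card_product, Finset.card_univ, Fintype.card_fun, Fintype.card_fin,
    Fintype.card_fin] at h
  linarith

/-- The growth of `S n` is slower than exponential. -/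
theorem exists_growth (n c : ℕ) (r : ℝ) (hr : 1 < r) :
    ∃ m : ℕ, ((S n (m + c)).card : ℝ) < r * (S n m).card := by
  by_contra hcon
  push Not at hcon
  have h1 : ∀ k : ℕ, r ^ k ≤ ((S n (k * c)).card : ℝ) := by
    intro k
    induction k with
    | zero =>
      have := card_S_pos n (0 * c)
      rw [pow_zero]
      exact_mod_cast this
    | succ k ih =>
      have h2 := hcon (k * c)
      have h3 : (k + 1) * c = k * c + c := by ring
      rw [h3, pow_succ, mul_comm]
      exact le_trans (mul_le_mul_of_nonneg_left ih (by linarith)) h2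
  have h2 : ∀ k : ℕ, 1 ≤ k → r ^ k ≤ ((c : ℝ) + 1) ^ n * (k : ℝ) ^ n := by
    intro k hk
    have h3 := h1 k
    have h4 : ((S n (k * c)).card : ℝ) ≤ (((k * c + 1) ^ n : ℕ) : ℝ) := by
      exact_mod_cast card_S_le n (k * c)
    have h5 : (((k * c + 1) ^ n : ℕ) : ℝ) ≤ (((c + 1) * k) ^ n : ℝ) := by
      push_cast
      refine pow_le_pow_left₀ (by positivity) ?_ n
      have : (1 : ℝ) ≤ k := by exact_mod_cast hk
      nlinarith
    rw [← mul_pow]
    linarith
  have h3 := tendsto_pow_const_div_const_pow_of_one_lt n hr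
  have h4 : Tendsto (fun k : ℕ => ((c : ℝ) + 1) ^ n * ((k : ℝ) ^ n / r ^ k)) atTop (𝓝 0) := by
    have := h3.const_mul (((c : ℝ) + 1) ^ n)
    rwa [mul_zero] at this
  have h5 := (h4.eventually (gt_mem_nhds (zero_lt_one))).and (eventually_ge_atTop 1)
  obtain ⟨k, hk1, hk2⟩ := h5.exists
  have h6 := h2 k hk2
  have h7 : (0 : ℝ) < r ^ k := by positivity
  rw [← mul_div_assoc, div_lt_one h7] at hk1
  linarith

theorem exists_count (n : ℕ) :
    ∃ m : ℕ, (S n (2 * (m + 2 ^ n))).card < (2 ^ n + 1) * (S n m).card := by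
  obtain ⟨m, hm⟩ := exists_growth n (2 ^ n) (((2 : ℝ) ^ n + 1) / 2 ^ n) (by
    rw [lt_div_iff₀ (by positivity)]
    linarith)
  refine ⟨m, lt_of_le_of_lt (card_S_double n (m + 2 ^ n)) ?_⟩
  rw [div_mul_eq_mul_div, lt_div_iff₀ (by positivity)] at hm
  have h2 : (((2 ^ n * (S n (m + 2 ^ n)).card : ℕ)) : ℝ) <
      (((2 ^ n + 1) * (S n m).card : ℕ) : ℝ) := by
    push_cast
    linarith
  exact_mod_cast h2

end Pool.Agent.Helper93.Bez
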