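import Pool.Agent.Helper93.Bez.Chain

/-!
# The projective form of the chain bound

Vectors `v 0, ..., v (N - 1)` of a real vector space `V`, no two of them proportional. If the only
vectors `t` with `B (v i) t = 0` for all symmetric bilinear forms `B` with `B (v j) (v j) = 0`
(`j ≥ i`) are the multiples of `v i`, then `N ≤ 2 ^ (dim V - 1)`.
-/

namespace Pool.Agent.Helper93.Bez

open Finset MvPolynomial

section poly

variable {V : Type*} [AddCommGroup V] [Module ℝ V] {n : ℕ}

/-- The point of the chart. -/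
noncomputable def pt (u0 : V) (e : Fin n → V) (x : Fin n → ℝ) : V := u0 + ∑ k, x k • e k

/-- The polynomial of a bilinear form in the chart. -/
noncomputable def bpoly (u0 : V) (e : Fin n → V) (B : LinearMap.BilinForm ℝ V) :
    MvPolynomial (Fin n) ℝ :=
  C (B u0 u0) + ∑ k, C (2 * B u0 (e k)) * X k + ∑ k, ∑ l, C (B (e k) (e l)) * (X k * X l)

theorem totalDegree_bpoly (u0 : V) (e : Fin n → V) (B : LinearMap.BilinForm ℝ V) :
    (bpoly u0 e B).totalDegree ≤ 2 := by
  unfold bpoly
  refine (totalDegree_add _ _).trans (max_le ((totalDegree_add _ _).trans (max_le ?_ ?_)) ?_)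
  · rw [totalDegree_C]
    omega
  · refine (totalDegree_finsetSum _ _).trans (Finset.sup_le fun k _ => ?_)
    refine (totalDegree_mul _ _).trans ?_
    rw [totalDegree_C, totalDegree_X]
    omega
  · refine (totalDegree_finsetSum _ _).trans (Finset.sup_le fun k _ => ?_)
    refine (totalDegree_finsetSum _ _).trans (Finset.sup_le fun l _ => ?_)
    refine (totalDegree_mul _ _).trans ?_
    have := totalDegree_mul (X k : MvPolynomial (Fin n) ℝ) (X l)
    rw [totalDegree_X, totalDegree_X] at this
    rw [totalDegree_C]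
    omega

theorem eval_bpoly (u0 : V) (e : Fin n → V) (B : LinearMap.BilinForm ℝ V)
    (hB : ∀ x y, B x y = B y x) (x : Fin n → ℝ) :
    eval x (bpoly u0 e B) = B (pt u0 e x) (pt u0 e x) := by
  have h1 : B u0 (∑ k, x k • e k) = ∑ k, x k * B u0 (e k) := by
    rw [map_sum]
    exact Finset.sum_congr rfl fun k _ => by rw [map_smul, smul_eq_mul]
  have h2 : B (∑ k, x k • e k) (∑ k, x k • e k) = ∑ k, ∑ l, x k * (x l * B (e k) (e l)) := by
    rw [map_sum (B (∑ k, x k • e k)), Finset.sum_comm]
    refine Finset.sum_congr rfl fun l _ => ?_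
    rw [map_smul, map_sum B, LinearMap.sum_apply, smul_eq_mul, Finset.mul_sum]
    refine Finset.sum_congr rfl fun k _ => ?_
    rw [map_smul, LinearMap.smul_apply, smul_eq_mul]
    ring
  have h3 : eval x (bpoly u0 e B) = B u0 u0 + ∑ k, 2 * B u0 (e k) * x k +
      ∑ k, ∑ l, B (e k) (e l) * (x k * x l) := by
    unfold bpoly
    simp only [map_add, map_sum, map_mul, eval_C, eval_X]
  have h4 : ∑ k, 2 * B u0 (e k) * x k = 2 * ∑ k, x k * B u0 (e k) := by
    rw [Finset.mul_sum]
    exact Finset.sum_congr rfl fun k _ => by ring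
  have h5 : ∑ k, ∑ l, B (e k) (e l) * (x k * x l) = ∑ k, ∑ l, x k * (x l * B (e k) (e l)) :=
    Finset.sum_congr rfl fun k _ => Finset.sum_congr rfl fun l _ => by ring
  unfold pt
  rw [h3, h4, h5, map_add (B (u0 + ∑ k, x k • e k)), map_add B, LinearMap.add_apply,
    LinearMap.add_apply, h1, h2, hB (∑ k, x k • e k) u0, h1]
  ring

theorem pderiv_bpoly (u0 : V) (e : Fin n → V) (B : LinearMap.BilinForm ℝ V)
    (hB : ∀ x y, B x y = B y x) (x : Fin n → ℝ) (m : Fin n) :
    eval x (pderiv m (bpoly u0 e B)) = 2 * B (pt u0 e x) (e m) := by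
  classical
  have h1 : eval x (pderiv m (∑ k, C (2 * B u0 (e k)) * X k)) = 2 * B u0 (e m) := by
    rw [map_sum, map_sum, Finset.sum_eq_single m]
    · rw [pderiv_C_mul, pderiv_X_self]
      simp
    · intro k _ hk
      rw [pderiv_C_mul, pderiv_X_of_ne hk, mul_zero, map_zero]
    · simp
  have h2 : ∀ k l, eval x (pderiv m (C (B (e k) (e l)) * (X k * X l))) =
      (if k = m then B (e k) (e l) * x l else 0) + (if l = m then B (e k) (e l) * x k else 0) := by
    intro k l
    rw [pderiv_C_mul, pderiv_mul, pderiv_X, pderiv_X, Pi.single_apply, Pi.single_apply]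
    by_cases hk : k = m <;> by_cases hl : l = m <;> simp [hk, hl, mul_add]
  have h3 : eval x (pderiv m (∑ k, ∑ l, C (B (e k) (e l)) * (X k * X l))) =
      2 * ∑ k, x k * B (e k) (e m) := by
    simp only [map_sum, h2, Finset.sum_add_distrib]
    have h4 : ∑ k, ∑ l, (if k = m then B (e k) (e l) * x l else 0) =
        ∑ k, x k * B (e k) (e m) := by
      rw [Finset.sum_eq_single m]
      · exact Finset.sum_congr rfl fun l _ => by rw [if_pos rfl, hB (e m) (e l), mul_comm]
      · intro k _ hk
        simp [hk]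
      · simp
    have h5 : ∑ k, ∑ l, (if l = m then B (e k) (e l) * x k else 0) =
        ∑ k, x k * B (e k) (e m) := by
      refine Finset.sum_congr rfl fun k _ => ?_
      rw [Finset.sum_ite_eq' Finset.univ m, if_pos (Finset.mem_univ _), mul_comm]
    rw [h4, h5]
    ring
  unfold bpoly
  rw [map_add, map_add, map_add, map_add, h1, h3, pderiv_C, map_zero]
  unfold pt
  rw [map_add, LinearMap.add_apply, map_sum, LinearMap.sum_apply]
  simp only [map_smul, LinearMap.smul_apply, smul_eq_mul]
  ring

end poly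

/-- Forms that separate span the dual. -/
theorem exists_dual_basis {n : ℕ} (W : Submodule ℝ (Module.Dual ℝ (Fin n → ℝ)))
    (hW : ∀ t, (∀ f ∈ W, f t = 0) → t = 0) (k : Fin n) :
    (LinearMap.proj k : (Fin n → ℝ) →ₗ[ℝ] ℝ) ∈ W := by
  have h1 : W.dualCoannihilator = ⊥ := by
    rw [Submodule.eq_bot_iff]
    intro t ht
    rw [Submodule.mem_dualCoannihilator] at ht
    exact hW t ht
  have h2 : W = ⊤ := by
    rw [← Subspace.dualCoannihilator_dualAnnihilator_eq (W := W), h1,
      Submodule.dualAnnihilator_bot]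
  rw [h2]
  exact Submodule.mem_top

/-- **The chain bound, projective form.** -/
theorem card_le_of_chain {V : Type*} [AddCommGroup V] [Module ℝ V] [FiniteDimensional ℝ V]
    {N : ℕ} (v : Fin N → V) (hpair : ∀ i j (c : ℝ), v i = c • v j → i = j)
    (I : Fin N → Submodule ℝ (LinearMap.BilinForm ℝ V))
    (hsym : ∀ i, ∀ B ∈ I i, ∀ x y, B x y = B y x)
    (hvan : ∀ i j, i ≤ j → ∀ B ∈ I i, B (v j) (v j) = 0)
    (hT : ∀ i t, (∀ B ∈ I i, B (v i) t = 0) → ∃ c : ℝ, t = c • v i) :
    N ≤ 2 ^ (Module.finrank ℝ V - 1) := by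
  classical
  rcases Nat.lt_or_ge N 2 with hN | hN
  · exact (Nat.lt_succ_iff.1 hN).trans Nat.one_le_two_pow
  have hv0 : ∀ i, v i ≠ 0 := by
    intro i hi
    obtain ⟨j, hj⟩ : ∃ j : Fin N, j ≠ i := by
      by_cases h : (i : ℕ) = 0
      · exact ⟨⟨1, by omega⟩, fun h2 => by rw [← h2] at h; simp at h⟩
      · exact ⟨⟨0, by omega⟩, fun h2 => h (by rw [← h2])⟩
    exact hj (hpair i j 0 (by rw [hi, zero_smul])).symm
  obtain ⟨l, hl⟩ := Module.exists_dual_forall_apply_ne_zero (K := ℝ) v hv0
  let i0 : Fin N := ⟨0, by omega⟩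
  set n := Module.finrank ℝ (LinearMap.ker l) with hn
  have hrank : n = Module.finrank ℝ V - 1 := by
    have h1 := LinearMap.finrank_range_add_finrank_ker l
    have h2 : LinearMap.range l = ⊤ :=
      LinearMap.range_eq_top.2 (LinearMap.surjective (fun h => hl i0 (by rw [h]; rfl)))
    rw [h2, finrank_top, Module.finrank_self] at h1
    omega
  let b := Module.finBasis ℝ (LinearMap.ker l)
  let e : Fin n → V := fun k => (b k : V)
  have hle : ∀ k, l (e k) = 0 := fun k => (b k).2
  let p : Fin N → V := fun i => (l (v i))⁻¹ • v i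
  have hlp : ∀ i, l (p i) = 1 := by
    intro i
    show l ((l (v i))⁻¹ • v i) = 1
    rw [map_smul, smul_eq_mul, inv_mul_cancel₀ (hl i)]
  let w : ∀ i : Fin N, LinearMap.ker l := fun i => ⟨p i - p i0, by
    rw [LinearMap.mem_ker, map_sub, hlp, hlp, sub_self]⟩
  let x : Fin N → Fin n → ℝ := fun i k => b.repr (w i) k
  have hsum : ∀ t : Fin n → ℝ, ∑ k, t k • e k = ((∑ k, t k • b k : LinearMap.ker l) : V) := by
    intro t
    rw [Submodule.coe_sum]
    rfl
  have hpt : ∀ i, pt (p i0) e (x i) = p i := by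
    intro i
    unfold pt
    rw [hsum, b.sum_repr (w i)]
    show p i0 + (p i - p i0) = p i
    abel
  have hB : ∀ i (k : Fin n), ∃ B ∈ I i, ∀ m, B (p i) (e m) = if k = m then 1 else 0 := by
    intro i k
    let Λ : LinearMap.BilinForm ℝ V →ₗ[ℝ] Module.Dual ℝ (Fin n → ℝ) :=
      { toFun := fun B => (B (p i)).comp (Fintype.linearCombination ℝ e)
        map_add' := by
          intro B B'
          ext t
          simp
        map_smul' := by
          intro c B
          ext t
          simp }
    have h1 := exists_dual_basis ((I i).map Λ) (by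
      intro t ht
      have h2 : ∀ B ∈ I i, B (v i) (∑ m, t m • e m) = 0 := by
        intro B hBi
        have h3 := ht (Λ B) (Submodule.mem_map_of_mem hBi)
        have h4 : B (p i) (∑ m, t m • e m) = 0 := by
          simpa [Λ, Fintype.linearCombination_apply] using h3
        have h5 : v i = l (v i) • p i := by
          show v i = l (v i) • ((l (v i))⁻¹ • v i)
          rw [smul_smul, mul_inv_cancel₀ (hl i), one_smul]
        rw [h5, map_smul, LinearMap.smul_apply, h4, smul_zero]
      obtain ⟨c, hc⟩ := hT i _ h2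
      have h6 : l (∑ m, t m • e m) = 0 := by
        rw [map_sum]
        exact Finset.sum_eq_zero fun m _ => by rw [map_smul, hle, smul_zero]
      rw [hc, map_smul, smul_eq_mul, mul_eq_zero] at h6
      have h7 : c = 0 := h6.resolve_right (hl i)
      rw [h7, zero_smul, hsum] at hc
      have h8 : (∑ k, t k • b k : LinearMap.ker l) = 0 := Subtype.ext hc
      have h9 := Fintype.linearIndependent_iff.1 b.linearIndependent t h8
      exact funext h9) k
    obtain ⟨B, hBi, hBe⟩ := h1
    refine ⟨B, hBi, fun m => ?_⟩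
    have h2 := congrArg (fun f : Module.Dual ℝ (Fin n → ℝ) => f (Pi.single m 1)) hBe
    have h3 : (Λ B) (Pi.single m 1) = B (p i) (e m) := by
      simp [Λ, Fintype.linearCombination_apply_single]
    simp only [h3] at h2
    rw [h2]
    simp [Pi.single_apply]
  choose B hBI hBd using hB
  have hx : Function.Injective x := by
    intro i j hij
    have h1 : p i = p j := by
      rw [← hpt i, ← hpt j, hij]
    refine hpair i j (l (v i) * (l (v j))⁻¹) ?_
    have h2 : v i = l (v i) • p i := by
      show v i = l (v i) • ((l (v i))⁻¹ • v i)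
      rw [smul_smul, mul_inv_cancel₀ (hl i), one_smul]
    calc v i = l (v i) • p i := h2
      _ = l (v i) • p j := by rw [h1]
      _ = _ := by
        show l (v i) • ((l (v j))⁻¹ • v j) = _
        rw [smul_smul]
  have hmain := chain x hx (fun i k => bpoly (p i0) e (B i k))
    (fun i k => totalDegree_bpoly _ _ _) ?_ ?_
  · rwa [hrank] at hmain
  · intro i j hij k
    rw [eval_bpoly _ _ _ (hsym i _ (hBI i k)), hpt]
    show B i k ((l (v j))⁻¹ • v j) ((l (v j))⁻¹ • v j) = 0
    rw [map_smul, map_smul, LinearMap.smul_apply, hvan i j hij _ (hBI i k)]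
    simp
  · intro i
    have h1 : jac (fun k => bpoly (p i0) e (B i k)) (x i) = (2 : ℝ) • (1 : Matrix (Fin n) (Fin n) ℝ) := by
      ext k m
      show eval (x i) (pderiv m (bpoly (p i0) e (B i k))) = _
      rw [pderiv_bpoly _ _ _ (hsym i _ (hBI i k)), hpt, hBd]
      simp [Matrix.one_apply]
    rw [h1, Matrix.det_smul, Matrix.det_one]
    simp

end Pool.Agent.Helper93.Bez
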