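import Pool.Agent.Helper93.Bez.Count

/-!
# An algebraic relation of small degree

For `n` polynomials `G i` of degree at most `2` in `n` variables and a polynomial `y` of degree at
most `1` there is a nontrivial relation `∑ c a b * y ^ a * ∏ G i ^ b i = 0` with `a ≤ 2 ^ n`.
-/

namespace Pool.Agent.Helper93.Bez

open Finset MvPolynomial

variable {n : ℕ}

/-- The monomials in `y` and the `G i`. -/
noncomputable def mon (G : Fin n → MvPolynomial (Fin n) ℝ) (y : MvPolynomial (Fin n) ℝ) (a : ℕ)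
    (b : Fin n → ℕ) : MvPolynomial (Fin n) ℝ := y ^ a * ∏ i, G i ^ b i

theorem totalDegree_mon {G : Fin n → MvPolynomial (Fin n) ℝ} {y : MvPolynomial (Fin n) ℝ}
    (hG : ∀ i, (G i).totalDegree ≤ 2) (hy : y.totalDegree ≤ 1) {m a : ℕ} (ha : a ≤ 2 ^ n)
    {b : Fin n → ℕ} (hb : b ∈ S n m) : (mon G y a b).totalDegree ≤ 2 * (m + 2 ^ n) := by
  rw [mem_S] at hb
  have h1 : (y ^ a).totalDegree ≤ a := by
    refine (totalDegree_pow y a).trans ?_
    calc a * y.totalDegree ≤ a * 1 := Nat.mul_le_mul_left a hy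
      _ = a := mul_one a
  have h2 : (∏ i, G i ^ b i).totalDegree ≤ 2 * m := by
    refine (totalDegree_finsetProd _ _).trans ?_
    calc ∑ i, (G i ^ b i).totalDegree ≤ ∑ i, b i * 2 :=
          Finset.sum_le_sum fun i _ => (totalDegree_pow _ _).trans (Nat.mul_le_mul_left _ (hG i))
      _ = (∑ i, b i) * 2 := (Finset.sum_mul _ _ _).symm
      _ ≤ 2 * m := by omega
  refine (totalDegree_mul _ _).trans ?_
  omega

/-- A polynomial of small degree with vanishing small coefficients vanishes. -/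
theorem eq_zero_of_coeff {T : ℕ} {p : MvPolynomial (Fin n) ℝ} (hp : p.totalDegree ≤ T)
    (h : ∀ e ∈ S n T, coeff (Finsupp.equivFunOnFinite.symm e) p = 0) : p = 0 := by
  classical
  ext e
  rw [coeff_zero]
  by_cases he : ∑ i, e i ≤ T
  · have h1 := h (Finsupp.equivFunOnFinite e) (by rw [mem_S]; exact he)
    rwa [Equiv.symm_apply_apply] at h1
  · by_contra h2
    apply he
    have h3 : e ∈ p.support := by rwa [mem_support_iff]
    have h4 := le_totalDegree h3
    have h5 : e.sum (fun _ x => x) = ∑ i, e i := Finsupp.sum_fintype _ _ (fun _ => rfl)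
    omega

theorem exists_rel (G : Fin n → MvPolynomial (Fin n) ℝ) (y : MvPolynomial (Fin n) ℝ)
    (hG : ∀ i, (G i).totalDegree ≤ 2) (hy : y.totalDegree ≤ 1) :
    ∃ (m : ℕ) (c : Fin (2 ^ n + 1) → (S n m) → ℝ), (∃ a b, c a b ≠ 0) ∧
      ∑ a : Fin (2 ^ n + 1), ∑ b : S n m, C (c a b) * mon G y a b = 0 := by
  classical
  obtain ⟨m, hm⟩ := exists_count n
  let Φ : (Fin (2 ^ n + 1) × (S n m) → ℝ) →ₗ[ℝ] (S n (2 * (m + 2 ^ n)) → ℝ) :=
    { toFun := fun c e => coeff (Finsupp.equivFunOnFinite.symm (e : Fin n → ℕ))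
        (∑ x : Fin (2 ^ n + 1) × (S n m), C (c x) * mon G y x.1 x.2)
      map_add' := by
        intro c d
        funext e
        simp only [Pi.add_apply, map_add, add_mul, Finset.sum_add_distrib, coeff_add]
      map_smul' := by
        intro t c
        funext e
        simp only [Pi.smul_apply, smul_eq_mul, map_mul, RingHom.id_apply, mul_assoc]
        rw [← Finset.mul_sum, coeff_C_mul] }
  have h1 : Module.finrank ℝ (S n (2 * (m + 2 ^ n)) → ℝ) <
      Module.finrank ℝ (Fin (2 ^ n + 1) × (S n m) → ℝ) := by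
    rw [Module.finrank_fintype_fun_eq_card, Module.finrank_fintype_fun_eq_card,
      Fintype.card_prod, Fintype.card_fin, Fintype.card_coe, Fintype.card_coe]
    exact hm
  have h2 := LinearMap.ker_ne_bot_of_finrank_lt (f := Φ) h1
  obtain ⟨c, hc, hc0⟩ := (Submodule.ne_bot_iff _).1 h2
  rw [LinearMap.mem_ker] at hc
  refine ⟨m, fun a b => c (a, b), ?_, ?_⟩
  · by_contra hcon
    push Not at hcon
    exact hc0 (funext fun x => hcon x.1 x.2)
  · rw [← Fintype.sum_prod_type' (f := fun a b => C (c (a, b)) * mon G y a b)]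
    refine eq_zero_of_coeff (T := 2 * (m + 2 ^ n)) ?_ ?_
    · refine (totalDegree_finsetSum _ _).trans (Finset.sup_le fun x _ => ?_)
      refine (totalDegree_mul _ _).trans ?_
      rw [totalDegree_C, zero_add]
      exact totalDegree_mon hG hy (by have := x.1.2; omega) x.2.2
    · intro e he
      exact congrFun hc ⟨e, he⟩

end Pool.Agent.Helper93.Bez
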