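import Pool.Agent.Helper93.Bez.Rel

/-!
# The number of nonsingular zeros of quadratic systems

`n` real polynomials of degree at most `2` in `n` variables have at most `2 ^ n` zeros with
invertible Jacobian matrix.
-/

namespace Pool.Agent.Helper93.Bez

open Finset MvPolynomial Filter Topology

variable {n : ℕ}

/-- The Jacobian matrix. -/
noncomputable def jac (G : Fin n → MvPolynomial (Fin n) ℝ) (x : Fin n → ℝ) :
    Matrix (Fin n) (Fin n) ℝ := Matrix.of fun i j => eval x (pderiv j (G i))

/-- The polynomial map. -/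
noncomputable def pmap (G : Fin n → MvPolynomial (Fin n) ℝ) (x : Fin n → ℝ) : Fin n → ℝ :=
  fun i => eval x (G i)

theorem hasStrict (p : MvPolynomial (Fin n) ℝ) (x : Fin n → ℝ) :
    HasStrictFDerivAt (fun x : Fin n → ℝ => eval x p)
      (∑ j, eval x (pderiv j p) • (ContinuousLinearMap.proj j : (Fin n → ℝ) →L[ℝ] ℝ)) x := by
  induction p using MvPolynomial.induction_on with
  | C a =>
    simp only [eval_C, pderiv_C, map_zero, zero_smul, Finset.sum_const_zero]
    exact hasStrictFDerivAt_const a x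
  | add p q hp hq =>
    simp only [map_add, add_smul, Finset.sum_add_distrib]
    exact hp.add hq
  | mul_X p i hp =>
    have h := hp.mul (hasStrictFDerivAt_apply (𝕜 := ℝ) i x)
    have h2 : (fun x : Fin n → ℝ => eval x (p * X i)) =
        (fun x : Fin n → ℝ => eval x p) * fun f : Fin n → ℝ => f i := by
      funext z
      simp
    rw [h2]
    refine h.congr_fderiv ?_
    ext v
    simp only [pderiv_mul, pderiv_X, map_add, map_mul, eval_X, add_apply,
      _root_.sum_apply, smul_apply, ContinuousLinearMap.proj_apply, smul_eq_mul, add_mul,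
      Finset.sum_add_distrib, Finset.mul_sum, Pi.single_apply]
    rw [add_comm]
    congr 1
    · exact Finset.sum_congr rfl fun j _ => by ring
    · rw [Finset.sum_eq_single i]
      · simp
      · intro j _ hj
        simp [Ne.symm hj]
      · simp

theorem hasStrict_pmap (G : Fin n → MvPolynomial (Fin n) ℝ) (x : Fin n → ℝ) :
    HasStrictFDerivAt (pmap G) (Matrix.toLin' (jac G x)).toContinuousLinearMap x := by
  rw [hasStrictFDerivAt_pi']
  intro i
  show HasStrictFDerivAt (fun x => eval x (G i)) _ x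
  refine (hasStrict (G i) x).congr_fderiv ?_
  ext v
  simp [jac, Matrix.mulVec, dotProduct]

theorem map_nhds (G : Fin n → MvPolynomial (Fin n) ℝ) (x : Fin n → ℝ)
    (hx : (jac G x).det ≠ 0) : Filter.map (pmap G) (𝓝 x) = 𝓝 (pmap G x) := by
  have h := hasStrict_pmap G x
  have hdet : (Matrix.toLin' (jac G x)).toContinuousLinearMap.det ≠ 0 := by
    rw [ContinuousLinearMap.det, LinearMap.coe_toContinuousLinearMap, LinearMap.det_toLin']
    exact hx
  have h2 : HasStrictFDerivAt (pmap G)
      (((Matrix.toLin' (jac G x)).toContinuousLinearMap.toContinuousLinearEquivOfDetNeZero hdet :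
        (Fin n → ℝ) ≃L[ℝ] (Fin n → ℝ)) : (Fin n → ℝ) →L[ℝ] (Fin n → ℝ)) x := by
    rw [ContinuousLinearMap.coe_toContinuousLinearEquivOfDetNeZero]
    exact h
  exact h2.map_nhds_eq_of_equiv

/-- A separating linear form. -/
theorem exists_sep (Z : Finset (Fin n → ℝ)) : ∃ y : MvPolynomial (Fin n) ℝ,
    y.totalDegree ≤ 1 ∧ ∀ z ∈ Z, ∀ z' ∈ Z, eval z y = eval z' y → z = z' := by
  classical
  let q : (Fin n → ℝ) → (Fin n → ℝ) → Polynomial ℝ := fun z z' =>
    ∑ i : Fin n, Polynomial.C (z i - z' i) * Polynomial.X ^ (i : ℕ)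
  have hq : ∀ z z', z ≠ z' → q z z' ≠ 0 := by
    intro z z' hzz h0
    apply hzz
    funext i
    have h1 := congrArg (fun p => Polynomial.coeff p (i : ℕ)) h0
    simp only [q, Polynomial.finsetSum_coeff, Polynomial.coeff_C_mul, Polynomial.coeff_X_pow,
      Polynomial.coeff_zero] at h1
    rw [Finset.sum_eq_single i] at h1
    · simp only [if_true, mul_one] at h1
      linarith
    · intro j _ hj
      rw [if_neg (fun h => hj (Fin.ext h.symm)), mul_zero]
    · simp
  have hprod : (∏ w ∈ (Z ×ˢ Z).filter (fun w => w.1 ≠ w.2), q w.1 w.2) ≠ 0 := by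
    rw [Finset.prod_ne_zero_iff]
    intro w hw
    exact hq _ _ (Finset.mem_filter.1 hw).2
  obtain ⟨t, ht⟩ := Infinite.exists_notMem_finset
    (∏ w ∈ (Z ×ˢ Z).filter (fun w => w.1 ≠ w.2), q w.1 w.2).roots.toFinset
  rw [Multiset.mem_toFinset, Polynomial.mem_roots hprod, Polynomial.IsRoot.def,
    Polynomial.eval_prod, Finset.prod_eq_zero_iff] at ht
  refine ⟨∑ i : Fin n, C (t ^ (i : ℕ)) * X i, ?_, ?_⟩
  · refine (totalDegree_finsetSum _ _).trans (Finset.sup_le fun i _ => ?_)
    refine (totalDegree_mul _ _).trans ?_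
    rw [totalDegree_C, totalDegree_X]
  · intro z hz z' hz' h
    by_contra hne
    apply ht
    refine ⟨(z, z'), Finset.mem_filter.2 ⟨Finset.mem_product.2 ⟨hz, hz'⟩, hne⟩, ?_⟩
    simp only [map_sum, map_mul, eval_C, eval_X] at h
    simp only [q, Polynomial.eval_finsetSum, Polynomial.eval_mul, Polynomial.eval_C,
      Polynomial.eval_pow, Polynomial.eval_X]
    have h2 : ∑ i : Fin n, (z i - z' i) * t ^ (i : ℕ) =
        ∑ i : Fin n, t ^ (i : ℕ) * z i - ∑ i : Fin n, t ^ (i : ℕ) * z' i := by
      rw [← Finset.sum_sub_distrib]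
      exact Finset.sum_congr rfl fun i _ => by ring
    rw [h2, h, sub_self]

/-- A nonzero polynomial does not vanish on a neighbourhood of `0`. -/
theorem exists_ne_zero {q : MvPolynomial (Fin n) ℝ} (hq : q ≠ 0) {W : Set (Fin n → ℝ)}
    (hW : W ∈ 𝓝 (0 : Fin n → ℝ)) : ∃ w ∈ W, eval w q ≠ 0 := by
  have h1 : ∃ v, eval v q ≠ 0 := by
    by_contra hcon
    push Not at hcon
    exact hq (MvPolynomial.funext fun v => by rw [hcon v, map_zero])
  obtain ⟨v, hv⟩ := h1
  let p : Polynomial ℝ := aeval (fun i => Polynomial.C (v i) * Polynomial.X) q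
  have hp : ∀ s : ℝ, p.eval s = eval (s • v) q := by
    intro s
    have h2 : (Polynomial.aeval s : Polynomial ℝ →ₐ[ℝ] ℝ).comp
        (MvPolynomial.aeval (fun i => Polynomial.C (v i) * Polynomial.X)) =
        MvPolynomial.aeval (s • v) := by
      apply MvPolynomial.algHom_ext
      intro i
      rw [AlgHom.comp_apply, MvPolynomial.aeval_X, MvPolynomial.aeval_X, map_mul,
        Polynomial.aeval_C, Polynomial.aeval_X]
      simp [mul_comm]
    have h3 := congrArg (fun f : MvPolynomial (Fin n) ℝ →ₐ[ℝ] ℝ => f q) h2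
    simp only [AlgHom.comp_apply] at h3
    have h4 : (MvPolynomial.aeval (s • v)) q = eval (s • v) q := by
      rw [← MvPolynomial.coe_aeval_eq_eval]
      rfl
    have h5 : p.eval s = Polynomial.aeval s p := by
      rw [Polynomial.coe_aeval_eq_eval]
    rw [h5, ← h4, ← h3]
  have hp0 : p ≠ 0 := by
    intro h0
    apply hv
    have := hp 1
    rw [h0, Polynomial.eval_zero, one_smul] at this
    exact this.symm
  have hcont : Tendsto (fun s : ℝ => s • v) (𝓝 0) (𝓝 (0 : Fin n → ℝ)) := by
    have : Continuous fun s : ℝ => s • v := continuous_id.smul continuous_const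
    have h := this.tendsto 0
    rwa [zero_smul] at h
  have h3 : ∀ᶠ s in 𝓝[≠] (0 : ℝ), s • v ∈ W := (hcont.eventually hW).filter_mono nhdsWithin_le_nhds
  have h4 : ∀ᶠ s in 𝓝[≠] (0 : ℝ), s ∉ (p.roots.toFinset : Set ℝ) := by
    have : (p.roots.toFinset : Set ℝ) \ {0} ⊆ (p.roots.toFinset : Set ℝ) := Set.sdiff_subset
    have hfin : ((p.roots.toFinset : Set ℝ) \ {0}).Finite := (Finset.finite_toSet _).subset this
    have hcl : (((p.roots.toFinset : Set ℝ) \ {0})ᶜ) ∈ 𝓝 (0 : ℝ) :=
      hfin.isClosed.isOpen_compl.mem_nhds (by simp)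
    rw [eventually_nhdsWithin_iff]
    filter_upwards [hcl] with s hs hs0 hmem
    exact hs ⟨hmem, hs0⟩
  obtain ⟨s, hs1, hs2⟩ := (h3.and h4).exists
  refine ⟨s • v, hs1, ?_⟩
  rw [← hp]
  intro h0
  apply hs2
  rw [Finset.mem_coe, Multiset.mem_toFinset, Polynomial.mem_roots hp0]
  exact h0

/-- **Bezout bound for nonsingular real zeros of quadratic systems.** -/
theorem card_zeros_le (G : Fin n → MvPolynomial (Fin n) ℝ) (hG : ∀ i, (G i).totalDegree ≤ 2)
    (Z : Finset (Fin n → ℝ)) (h0 : ∀ z ∈ Z, ∀ i, eval z (G i) = 0)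
    (h1 : ∀ z ∈ Z, (jac G z).det ≠ 0) : Z.card ≤ 2 ^ n := by
  classical
  obtain ⟨y, hy, hsep⟩ := exists_sep Z
  obtain ⟨m, c, ⟨a0, b0, hab⟩, hrel⟩ := exists_rel G y hG hy
  -- the coefficients in `y`
  let P : Fin (2 ^ n + 1) → MvPolynomial (Fin n) ℝ := fun a =>
    ∑ b : S n m, C (c a b) * ∏ i, X i ^ ((b : Fin n → ℕ) i)
  have hP0 : P a0 ≠ 0 := by
    intro h
    apply hab
    have h2 := congrArg (coeff (Finsupp.equivFunOnFinite.symm (b0 : Fin n → ℕ))) h
    simp only [P, coeff_sum, coeff_C_mul, coeff_zero] at h2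
    have h3 : ∀ b : S n m, (∏ i, (X i : MvPolynomial (Fin n) ℝ) ^ ((b : Fin n → ℕ) i)) =
        monomial (Finsupp.equivFunOnFinite.symm (b : Fin n → ℕ)) 1 := by
      intro b
      rw [MvPolynomial.monomial_eq, C_1, one_mul, Finsupp.prod_fintype _ _ (fun i => pow_zero _)]
      rfl
    simp only [h3, coeff_monomial] at h2
    rw [Finset.sum_eq_single b0] at h2
    · simpa using h2
    · intro b _ hb
      rw [if_neg, mul_zero]
      intro h4
      exact hb (Subtype.ext (Finsupp.equivFunOnFinite.symm.injective h4))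
    · simp
  -- separation of the values of `y`
  obtain ⟨U, hU, hdisj⟩ := (Z.image fun z => eval z y).finite_toSet.t2_separation
  have hcy : Continuous fun x : Fin n → ℝ => eval x y := MvPolynomial.continuous_eval y
  let V : (Fin n → ℝ) → Set (Fin n → ℝ) := fun z => (fun x => eval x y) ⁻¹' U (eval z y)
  have hV : ∀ z, V z ∈ 𝓝 z := fun z =>
    ((hU (eval z y)).2.preimage hcy).mem_nhds (hU (eval z y)).1
  have hW : (⋂ z ∈ Z, pmap G '' V z) ∈ 𝓝 (0 : Fin n → ℝ) := by
    rw [Filter.biInter_finset_mem]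
    intro z hz
    have h2 := map_nhds G z (h1 z hz)
    have h3 : pmap G z = 0 := funext fun i => h0 z hz i
    rw [h3] at h2
    rw [← h2]
    exact Filter.image_mem_map (hV z)
  obtain ⟨w, hw, hPw⟩ := exists_ne_zero hP0 hW
  have hx : ∀ z ∈ Z, ∃ x ∈ V z, pmap G x = w := by
    intro z hz
    have := Set.mem_iInter₂.1 hw z hz
    exact this
  choose! x hxV hxw using hx
  let Q : Polynomial ℝ := ∑ a : Fin (2 ^ n + 1), Polynomial.C (eval w (P a)) *
    Polynomial.X ^ (a : ℕ)
  have hQcoeff : Q.coeff (a0 : ℕ) = eval w (P a0) := by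
    simp only [Q, Polynomial.finsetSum_coeff, Polynomial.coeff_C_mul, Polynomial.coeff_X_pow]
    rw [Finset.sum_eq_single a0]
    · simp
    · intro j _ hj
      rw [if_neg (fun h => hj (Fin.ext h.symm)), mul_zero]
    · simp
  have hQ0 : Q ≠ 0 := by
    intro h
    rw [h, Polynomial.coeff_zero] at hQcoeff
    exact hPw hQcoeff.symm
  have hQdeg : Q.natDegree ≤ 2 ^ n := by
    refine Polynomial.natDegree_sum_le_of_forall_le _ _ fun a _ => ?_
    refine (Polynomial.natDegree_C_mul_X_pow_le _ _).trans ?_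
    have := a.2
    omega
  have hroot : ∀ z ∈ Z, Q.eval (eval (x z) y) = 0 := by
    intro z hz
    have h2 := congrArg (eval (x z)) hrel
    rw [map_sum, map_zero] at h2
    rw [← h2]
    simp only [Q, Polynomial.eval_finsetSum, Polynomial.eval_mul, Polynomial.eval_C,
      Polynomial.eval_pow, Polynomial.eval_X]
    refine Finset.sum_congr rfl fun a _ => ?_
    rw [map_sum]
    simp only [mon, map_sum, map_mul, eval_C, map_prod, map_pow, eval_X, Finset.sum_mul]
    refine Finset.sum_congr rfl fun b _ => ?_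
    have h3 : ∀ i, eval (x z) (G i) = w i := fun i => congrFun (hxw z hz) i
    simp only [h3]
    ring
  have hinj : Set.InjOn (fun z => eval (x z) y) (Z : Set (Fin n → ℝ)) := by
    intro z hz z' hz' heq
    by_contra hne
    have h2 : eval z y ≠ eval z' y := fun h => hne (hsep z hz z' hz' h)
    have h3 := hdisj (Finset.mem_coe.2 (Finset.mem_image_of_mem _ hz))
      (Finset.mem_coe.2 (Finset.mem_image_of_mem _ hz')) h2
    have h4 : eval (x z) y ∈ U (eval z y) := hxV z hz
    have h5 : eval (x z') y ∈ U (eval z' y) := hxV z' hz'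
    have heq' : eval (x z) y = eval (x z') y := heq
    rw [← heq'] at h5
    exact Set.disjoint_left.1 h3 h4 h5
  calc Z.card = (Z.image fun z => eval (x z) y).card := (Finset.card_image_of_injOn hinj).symm
    _ ≤ Q.roots.toFinset.card := by
        refine Finset.card_le_card fun t ht => ?_
        obtain ⟨z, hz, rfl⟩ := Finset.mem_image.1 ht
        rw [Multiset.mem_toFinset, Polynomial.mem_roots hQ0]
        exact hroot z hz
    _ ≤ Multiset.card Q.roots := Multiset.toFinset_card_le _
    _ ≤ Q.natDegree := Q.card_roots'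
    _ ≤ 2 ^ n := hQdeg

end Pool.Agent.Helper93.Bez
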